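import Pool.Agent.MP_5f72fe_nt.H3.SpecC

/-! Convergence and modularity of the sums over quadratic forms. -/

namespace Pool.Agent.MP_5f72fe_nt.H74

open Complex Pool.Agent.MP_5f72fe_nt.H3

theorem sum_one : Summable fun a : ℤ => 1 / (1 + |(a : ℝ)|) ^ 2 := by
  have h : Summable fun n : ℕ => 1 / (1 + (n : ℝ)) ^ 2 := by
    have := (summable_nat_add_iff 1).2 (Real.summable_one_div_nat_pow.2 (show 1 < 2 by norm_num))
    simpa [add_comm] using this
  refine summable_int_iff_summable_nat_and_neg.2 ⟨?_, ?_⟩ <;> simpa using h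

theorem lower (δ R : ℝ) (hδ : 0 < δ) (hR : 0 ≤ R) : ∃ K : ℝ, 0 < K ∧ ∀ (z : ℂ) (a b c : ℝ),
    δ ≤ z.im → |z.re| ≤ R → 1 ≤ b ^ 2 - 4 * a * c →
    1 + |a| ≤ K * ‖a * z ^ 2 + b * z + c‖ ∧ 1 + |b| ≤ K * ‖a * z ^ 2 + b * z + c‖ ∧
      1 + |c| ≤ K * ‖a * z ^ 2 + b * z + c‖ := by
  set A := 1 / δ ^ 2 with hA
  set B := 2 / δ + 2 * R * A with hB
  set C := 1 + R ^ 2 * A + R * B with hC
  have hA0 : 0 < A := by positivity
  have hB0 : 0 < B := by positivity
  have hC0 : 0 < C := by positivity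
  refine ⟨1 / δ + A + B + C, by positivity, fun z a b c hy hx hD => ?_⟩
  set M := ‖(a : ℂ) * z ^ 2 + b * z + c‖ with hM
  have hM0 : 0 ≤ M := norm_nonneg _
  set x := z.re
  set y := z.im
  have hy0 : 0 < y := hδ.trans_le hy
  have e : M ^ 2 = (a * x ^ 2 + b * x + c - a * y ^ 2) ^ 2 + (y * (2 * a * x + b)) ^ 2 := by
    rw [hM, Complex.sq_norm, Complex.normSq_apply]
    simp only [add_re, mul_re, ofReal_re, ofReal_im, add_im, mul_im, pow_two]
    ring
  have hD' : 1 ≤ (2 * a * x + b) ^ 2 - 4 * a * (a * x ^ 2 + b * x + c) := by nlinarith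
  have h0 : y ^ 2 ≤ M ^ 2 := by
    nlinarith [sq_nonneg (a * x ^ 2 + b * x + c + a * y ^ 2),
      mul_le_mul_of_nonneg_left hD' (sq_nonneg y)]
  have h1 : (a * x ^ 2 + b * x + c) ^ 2 + (a * y ^ 2) ^ 2 + (y * (2 * a * x + b)) ^ 2 / 2 ≤ M ^ 2 := by
    nlinarith [mul_le_mul_of_nonneg_left hD' (sq_nonneg y), sq_nonneg y]
  have k0 : δ ≤ M := hy.trans (pow_le_pow_left₀ hy0.le (le_refl y) 2 |> fun _ =>
    abs_le_of_sq_le_sq' h0 hM0 |>.2)
  have k1 : |a * x ^ 2 + b * x + c| ≤ M :=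
    abs_le_of_sq_le_sq (by nlinarith [sq_nonneg (a * y ^ 2), sq_nonneg (y * (2 * a * x + b))]) hM0
  have k2 : |a * y ^ 2| ≤ M := abs_le_of_sq_le_sq (by
    nlinarith [sq_nonneg (a * x ^ 2 + b * x + c), sq_nonneg (y * (2 * a * x + b))]) hM0
  have k3 : |y * (2 * a * x + b)| ≤ 2 * M := abs_le_of_sq_le_sq (by
    nlinarith [sq_nonneg (a * x ^ 2 + b * x + c), sq_nonneg (a * y ^ 2), sq_nonneg M])
    (by positivity)
  have m0 : 1 ≤ 1 / δ * M := by
    rw [one_div, ← div_eq_inv_mul, le_div_iff₀ hδ]; linarith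
  have m1 : |a| ≤ A * M := by
    rw [abs_mul, abs_of_pos (pow_pos hy0 2)] at k2
    have : |a| * δ ^ 2 ≤ |a| * y ^ 2 :=
      mul_le_mul_of_nonneg_left (pow_le_pow_left₀ hδ.le hy 2) (abs_nonneg a)
    rw [hA, one_div, ← div_eq_inv_mul, le_div_iff₀ (pow_pos hδ 2)]
    linarith
  have m2 : |b| ≤ B * M := by
    rw [abs_mul, abs_of_pos hy0] at k3
    have h2 : |2 * a * x + b| ≤ 2 / δ * M := by
      rw [div_mul_eq_mul_div, le_div_iff₀ hδ]
      nlinarith [abs_nonneg (2 * a * x + b)]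
    have h3 : |b| ≤ |2 * a * x + b| + |2 * a * x| := by
      simpa using abs_sub (2 * a * x + b) (2 * a * x)
    have h4 : |2 * a * x| ≤ 2 * (A * M) * R := by
      rw [abs_mul, abs_mul, abs_two]
      gcongr
    rw [hB]
    nlinarith
  have m3 : |c| ≤ C * M := by
    have h3 : |c| ≤ |a * x ^ 2 + b * x + c| + |a * x ^ 2| + |b * x| := by
      have e : c = (a * x ^ 2 + b * x + c) - a * x ^ 2 - b * x := by ring
      calc |c| = |(a * x ^ 2 + b * x + c) - a * x ^ 2 - b * x| := by rw [← e]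
        _ ≤ _ := (abs_sub _ _).trans (by gcongr; exact abs_sub _ _)
    have h4 : |a * x ^ 2| ≤ A * M * R ^ 2 := by
      rw [abs_mul, abs_pow]
      gcongr
    have h5 : |b * x| ≤ B * M * R := by
      rw [abs_mul]
      gcongr
    rw [hC]
    nlinarith
  have p1 := mul_nonneg hA0.le hM0
  have p2 := mul_nonneg hB0.le hM0
  have p3 := mul_nonneg hC0.le hM0
  refine ⟨?_, ?_, ?_⟩ <;> nlinarith

theorem bound (hχ : RowCHI) {N k n : ℕ} (hA : Adm N k) (hn : 1 ≤ n) (δ R : ℝ) (hδ : 0 < δ)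
    (hR : 0 ≤ R) : ∃ u : ℤ × ℤ × ℤ → ℝ, Summable u ∧ ∀ z : ℂ, δ ≤ z.im → |z.re| ≤ R → ∀ q,
      ‖Qt N k n z q‖ ≤ u q := by
  obtain ⟨K, hK, h⟩ := lower δ R hδ hR
  have hN : 1 ≤ N := Nat.pos_of_ne_zero hA.2.1.ne_zero
  have hs := (sum_one.mul_of_nonneg (sum_one.mul_of_nonneg sum_one (fun _ => by positivity)
    fun _ => by positivity) (fun _ => by positivity) fun _ => by positivity).mul_left (K ^ k)
  refine ⟨_, hs, fun z hy hx q => ?_⟩
  obtain ⟨a, b, c⟩ := q
  unfold Qt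
  split_ifs with hq
  · dsimp only at hq ⊢
    have hD : (1 : ℝ) ≤ (b : ℝ) ^ 2 - 4 * a * c := by
      have : (1 : ℤ) ≤ b ^ 2 - 4 * a * c := by
        rw [hq]
        exact_mod_cast Nat.mul_pos hN hn
      exact_mod_cast this
    obtain ⟨h1, h2, h3⟩ := h z a b c hy hx hD
    push_cast at h1 h2 h3
    set M := ‖(a : ℂ) * z ^ 2 + b * z + c‖
    have ha := abs_nonneg (a : ℝ)
    have hb := abs_nonneg (b : ℝ)
    have hc := abs_nonneg (c : ℝ)
    have hKM : 1 ≤ K * M := by linarith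
    have hM : 0 < M := (mul_pos_iff_of_pos_left hK).1 (by linarith)
    have h4 : ‖(chi N a b c : ℂ)‖ ≤ 1 := by
      rw [Complex.norm_intCast]
      exact_mod_cast hχ.abs N a b c
    have h5 : (1 + |(a : ℝ)|) ^ 2 * ((1 + |(b : ℝ)|) ^ 2 * (1 + |(c : ℝ)|) ^ 2) ≤ (K * M) ^ k :=
      calc _ ≤ (K * M) ^ 2 * ((K * M) ^ 2 * (K * M) ^ 2) := by gcongr
        _ = (K * M) ^ 6 := by ring
        _ ≤ _ := pow_le_pow_right₀ hKM hA.1
    rw [norm_div, norm_pow]
    calc _ ≤ 1 / M ^ k := by gcongr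
      _ = K ^ k * (1 / (K * M) ^ k) := by rw [mul_pow]; field_simp
      _ ≤ K ^ k * (1 / ((1 + |(a : ℝ)|) ^ 2 * ((1 + |(b : ℝ)|) ^ 2 * (1 + |(c : ℝ)|) ^ 2))) := by
        gcongr
      _ = _ := by field_simp
  · rw [norm_zero]
    positivity

/-- the translation -/
def eT : ℤ × ℤ × ℤ ≃ ℤ × ℤ × ℤ where
  toFun q := (q.1, q.2.1 + 2 * q.1 * 1, q.1 * 1 ^ 2 + q.2.1 * 1 + q.2.2)
  invFun q := (q.1, q.2.1 - 2 * q.1, q.1 - q.2.1 + q.2.2)
  left_inv q := by ext <;> simp <;> ring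
  right_inv q := by ext <;> simp <;> ring

/-- the inversion -/
def eS : ℤ × ℤ × ℤ ≃ ℤ × ℤ × ℤ where
  toFun q := (q.2.2, -q.2.1, q.1)
  invFun q := (q.2.2, -q.2.1, q.1)
  left_inv q := by simp
  right_inv q := by simp

theorem rowCA : OfCA := by
  intro hχ N k n hA hn
  have hodd : Odd N := by
    have := hA.2.2
    rw [Nat.odd_iff]
    omega
  refine ⟨fun z hz => ?_, fun z hz => ?_, fun z hz => ⟨?_, ?_⟩⟩
  · obtain ⟨u, hu, h⟩ := bound hχ hA hn z.im |z.re| hz (abs_nonneg _)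
    exact Summable.of_nonneg_of_le (fun _ => norm_nonneg _) (h z le_rfl le_rfl) hu
  · have hz' : 0 < z.im := hz
    obtain ⟨u, hu, h⟩ := bound hχ hA hn (z.im / 2) (|z.re| + 1) (by linarith) (by positivity)
    obtain ⟨K, hK, hl⟩ := lower (z.im / 2) (|z.re| + 1) (by linarith) (by positivity)
    have hN : 1 ≤ N := Nat.pos_of_ne_zero hA.2.1.ne_zero
    have hU : IsOpen {w : ℂ | z.im / 2 < w.im ∧ |w.re| < |z.re| + 1} :=
      (isOpen_lt continuous_const continuous_im).inter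
        (isOpen_lt continuous_re.abs continuous_const)
    have hd := differentiableOn_tsum_of_summable_norm (F := fun q w => Qt N k n w q) hu
      (fun q => ?_) hU fun q w hw => h w hw.1.le hw.2.le q
    · exact (hd.differentiableAt (hU.mem_nhds ⟨by linarith, by linarith⟩)).differentiableWithinAt
    · obtain ⟨a, b, c⟩ := q
      unfold Qt
      split_ifs with hq
      · dsimp only at hq ⊢
        have hD : (1 : ℝ) ≤ (b : ℝ) ^ 2 - 4 * a * c := by
          have : (1 : ℤ) ≤ b ^ 2 - 4 * a * c := by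
            rw [hq]
            exact_mod_cast Nat.mul_pos hN hn
          exact_mod_cast this
        refine DifferentiableOn.div (by fun_prop) (by fun_prop) fun w hw => pow_ne_zero _ ?_
        intro e
        have h1 := (hl w a b c hw.1.le hw.2.le hD).1
        push_cast at h1
        rw [e, norm_zero, mul_zero] at h1
        linarith [abs_nonneg (a : ℝ)]
      · exact differentiableOn_const _
  · unfold fq
    rw [← eT.tsum_eq (Qt N k n z)]
    refine tsum_congr fun q => ?_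
    obtain ⟨a, b, c⟩ := q
    simp only [Qt, eT, Equiv.coe_fn_mk, hχ.tr N a b c 1 hodd]
    refine if_congr ?_ ?_ rfl
    · constructor <;> intro h <;> linarith
    · congr 2
      push_cast
      ring
  · unfold fq
    have hz0 : z ≠ 0 := fun e => by simp [e] at hz
    rw [← eS.tsum_eq (Qt N k n z), ← tsum_mul_left]
    refine tsum_congr fun q => ?_
    obtain ⟨a, b, c⟩ := q
    simp only [Qt, eS, Equiv.coe_fn_mk, hχ.sw N a b c hodd, mul_ite, mul_zero]
    refine if_congr ?_ ?_ rfl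
    · constructor <;> intro h <;> linarith
    · have e : (a : ℂ) * (-1 / z) ^ 2 + b * (-1 / z) + c =
          (c * z ^ 2 + ((-b : ℤ) : ℂ) * z + a) / z ^ 2 := by
        push_cast
        field_simp
        ring
      rw [e, div_pow, ← pow_mul, div_div_eq_mul_div]
      ring

end Pool.Agent.MP_5f72fe_nt.H74
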