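import Pool.Agent.MP_5f72fe_nt.H25.SpecN

/-! The value of the L-series of an odd quadratic character at `1`. -/

namespace Pool.Agent.MP_5f72fe_nt.H74L

open Filter Topology Pool.Agent.MP_5f72fe_nt.H3 Pool.Agent.MP_5f72fe_nt.H25N
open scoped Real NumberTheorySymbols

noncomputable section

/-- summation by parts against a decreasing sequence -/
lemma abel_bound (u a : ℕ → ℝ) (C : ℝ) (hu : ∀ k, |∑ m ∈ Finset.range k, u m| ≤ C)
    (ha : Antitone a) (h0 : ∀ k, 0 ≤ a k) (k : ℕ) :
    |∑ m ∈ Finset.range k, u m * a m| ≤ C * a 0 := by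
  have key : ∀ k, |∑ m ∈ Finset.range k, u m * a m - (∑ m ∈ Finset.range k, u m) * a k|
      ≤ C * (a 0 - a k) := by
    intro k
    induction k with
    | zero => simp
    | succ k ih =>
      have e : ∑ m ∈ Finset.range (k + 1), u m * a m - (∑ m ∈ Finset.range (k + 1), u m) * a (k + 1)
          = (∑ m ∈ Finset.range k, u m * a m - (∑ m ∈ Finset.range k, u m) * a k)
            + (∑ m ∈ Finset.range (k + 1), u m) * (a k - a (k + 1)) := by
        rw [Finset.sum_range_succ, Finset.sum_range_succ]; ring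
      have h1 : 0 ≤ a k - a (k + 1) := sub_nonneg.mpr (ha (Nat.le_succ k))
      have h2 : |(∑ m ∈ Finset.range (k + 1), u m) * (a k - a (k + 1))| ≤ C * (a k - a (k + 1)) := by
        rw [abs_mul, abs_of_nonneg h1]
        exact mul_le_mul_of_nonneg_right (hu _) h1
      rw [e]
      refine (abs_add_le _ _).trans ?_
      linarith
  have h3 : |(∑ m ∈ Finset.range k, u m) * a k| ≤ C * a k := by
    rw [abs_mul, abs_of_nonneg (h0 k)]
    exact mul_le_mul_of_nonneg_right (hu _) (h0 k)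
  have h4 := key k
  have h5 := abs_add_le (∑ m ∈ Finset.range k, u m * a m - (∑ m ∈ Finset.range k, u m) * a k)
    ((∑ m ∈ Finset.range k, u m) * a k)
  rw [sub_add_cancel] at h5
  linarith

/-- the tail of a convergent series -/
lemma tail_bound (u a : ℕ → ℝ) (C S : ℝ) (hu : ∀ k, |∑ m ∈ Finset.range k, u m| ≤ C) (M : ℕ)
    (ha : Antitone fun m => a (M + m)) (h0 : ∀ k, 0 ≤ a k) (hS : HasSum (fun m => u m * a m) S) :
    |S - ∑ m ∈ Finset.range M, u m * a m| ≤ 2 * C * a M := by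
  have hu' : ∀ k, |∑ m ∈ Finset.range k, u (M + m)| ≤ 2 * C := by
    intro k
    have e : ∑ m ∈ Finset.range k, u (M + m)
        = ∑ m ∈ Finset.range (M + k), u m - ∑ m ∈ Finset.range M, u m := by
      rw [Finset.sum_range_add]; ring
    rw [e]
    have := abs_sub (∑ m ∈ Finset.range (M + k), u m) (∑ m ∈ Finset.range M, u m)
    have h1 := hu (M + k)
    have h2 := hu M
    linarith
  have hb := abel_bound (fun m => u (M + m)) (fun m => a (M + m)) (2 * C) hu' ha (fun k => h0 _)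
  have ht : Tendsto (fun k => ∑ m ∈ Finset.range (M + k), u m * a m) atTop (𝓝 S) := by
    have := hS.tendsto_sum_nat.comp (tendsto_add_atTop_nat M)
    refine this.congr fun k => ?_
    simp only [Function.comp, add_comm]
  have ht2 := (ht.sub_const (∑ m ∈ Finset.range M, u m * a m)).abs
  refine le_of_tendsto' ht2 fun k => ?_
  have := hb k
  rw [Finset.sum_range_add]
  simpa using this

lemma arg_one_sub (t : ℝ) (h0 : 0 < t) (h1 : t < 1) :
    0 < (1 - E t).re ∧ (1 - E t).arg = π * (t - 1 / 2) := by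
  have hs : 0 < Real.sin (π * t) :=
    Real.sin_pos_of_pos_of_lt_pi (by positivity) (by nlinarith [Real.pi_pos])
  have hE : E t = (Real.cos (2 * (π * t)) : ℝ) + (Real.sin (2 * (π * t)) : ℝ) * Complex.I := by
    unfold E
    rw [show 2 * (π : ℂ) * Complex.I * t = ((2 * (π * t) : ℝ) : ℂ) * Complex.I by push_cast; ring,
      Complex.exp_mul_I]
    push_cast; rfl
  have e : 1 - E t = ((2 * Real.sin (π * t) : ℝ) : ℂ) *
      (Complex.cos ((π * (t - 1 / 2) : ℝ) : ℂ) + Complex.sin ((π * (t - 1 / 2) : ℝ) : ℂ) * Complex.I) := by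
    rw [hE, ← Complex.ofReal_cos, ← Complex.ofReal_sin,
      show π * (t - 1 / 2) = π * t - π / 2 by ring, Real.cos_sub_pi_div_two, Real.sin_sub_pi_div_two,
      Real.cos_two_mul, Real.sin_two_mul]
    have := Real.sin_sq_add_cos_sq (π * t)
    apply Complex.ext
    · simp only [Complex.sub_re, Complex.one_re, Complex.add_re, Complex.ofReal_re, Complex.mul_re,
        Complex.I_re, Complex.ofReal_im, Complex.I_im, Complex.add_im, Complex.mul_im]
      nlinarith
    · simp only [Complex.sub_im, Complex.one_im, Complex.add_re, Complex.ofReal_re, Complex.mul_re,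
        Complex.I_re, Complex.ofReal_im, Complex.I_im, Complex.add_im, Complex.mul_im]
      ring
  constructor
  · rw [hE, Real.cos_two_mul]
    have := Real.sin_sq_add_cos_sq (π * t)
    simp only [Complex.sub_re, Complex.one_re, Complex.add_re, Complex.ofReal_re, Complex.mul_re,
        Complex.I_re, Complex.ofReal_im, Complex.I_im]
    nlinarith
  · rw [e]
    refine Complex.arg_mul_cos_add_sin_mul_I (by positivity) ⟨?_, ?_⟩ <;> nlinarith [Real.pi_pos]

section main

variable {n : ℕ}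

lemma J_zero (h3 : n % 4 = 3) : J(0 | n) = 0 := jacobiSym.zero_left (by omega)

lemma sum_J (hJ : RowJH) (hG : RowGAUSS) (h3 : n % 4 = 3) (hs : Squarefree n) :
    ∑ c ∈ Finset.range n, ((J(c | n) : ℤ) : ℝ) = 0 := by
  have h := hG n (Nat.odd_iff.mpr (by omega)) hs 0
  have h1 := hJ.int 0
  simp only [Int.cast_zero, mul_zero, zero_div, J_zero h3, zero_mul] at h h1
  simp only [h1, mul_one] at h
  exact_mod_cast h

lemma part_J (hJ : RowJH) (hG : RowGAUSS) (h3 : n % 4 = 3) (hs : Squarefree n) (k : ℕ) :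
    |∑ c ∈ Finset.range k, ((J(c | n) : ℤ) : ℝ)| ≤ n := by
  have hp : Function.Periodic (fun k => ∑ c ∈ Finset.range k, ((J(c | n) : ℤ) : ℝ)) n := by
    intro k
    induction k with
    | zero => simpa using sum_J hJ hG h3 hs
    | succ k ih =>
      simp only at ih ⊢
      rw [show k + 1 + n = (k + n) + 1 by ring, Finset.sum_range_succ, Finset.sum_range_succ, ih]
      congr 2
      rw [jacobiSym.mod_left ((k + n : ℕ) : ℤ), jacobiSym.mod_left (k : ℤ)]
      push_cast
      rw [Int.add_emod_right]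
  have := hp.map_mod_nat k
  rw [← this]
  refine (Finset.abs_sum_le_sum_abs _ _).trans ?_
  have h1 : ∀ c ∈ Finset.range (k % n), |((J(c | n) : ℤ) : ℝ)| ≤ 1 := by
    intro c _
    rcases jacobiSym.trichotomy (c : ℤ) n with h | h | h <;> simp [h]
  refine (Finset.sum_le_sum h1).trans ?_
  simp only [Finset.sum_const, Finset.card_range, nsmul_eq_mul, mul_one, Nat.cast_le]
  exact (Nat.mod_lt _ (by omega)).le

lemma E_pow (hJ : RowJH) (x : ℂ) (m : ℕ) : E (x * m) = E x ^ m := by
  induction m with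
  | zero => simpa using hJ.int 0
  | succ m ih => push_cast; rw [mul_add, hJ.add, ih, mul_one, pow_succ]

/-- the power series -/
lemma hasSum_pow (hJ : RowJH) (hG : RowGAUSS) (h3 : n % 4 = 3) (hs : Squarefree n) (x : ℝ)
    (h0 : 0 ≤ x) (h1 : x < 1) :
    HasSum (fun m : ℕ => ((J(m | n) : ℤ) : ℝ) * (x ^ m / m))
      ((∑ c ∈ Finset.range n, ((J(c | n) : ℤ) : ℝ) * -(1 - x * E ((c / n : ℝ) : ℂ)).arg) / √n) := by
  have hn : (0 : ℝ) < √n := Real.sqrt_pos.mpr (by exact_mod_cast (by omega : 0 < n))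
  have hc : ∀ c ∈ Finset.range n, HasSum
      (fun m : ℕ => (J(c | n) : ℂ) * ((x * E ((c / n : ℝ) : ℂ)) ^ m / m))
      ((J(c | n) : ℂ) * -Complex.log (1 - x * E ((c / n : ℝ) : ℂ))) := by
    intro c _
    refine (Complex.hasSum_taylorSeries_neg_log ?_).mul_left _
    rw [norm_mul, hJ.norm, Complex.ofReal_im]
    simpa [abs_of_nonneg h0] using h1
  have h := hasSum_sum hc
  have e : ∀ m : ℕ, ∑ c ∈ Finset.range n, (J(c | n) : ℂ) * ((x * E ((c / n : ℝ) : ℂ)) ^ m / m)
      = ((((J(m | n) : ℤ) : ℝ) * (x ^ m / m) * √n : ℝ) : ℂ) * Complex.I := by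
    intro m
    have hg := hG n (Nat.odd_iff.mpr (by omega)) hs m
    have hgs : GS n = (√n : ℝ) * Complex.I := by
      unfold GS; rw [if_neg (by omega)]
    rw [hgs] at hg
    have e2 : ∀ c : ℕ, (J(c | n) : ℂ) * ((x * E ((c / n : ℝ) : ℂ)) ^ m / m)
        = (J(c | n) : ℂ) * E (c * ((m : ℤ) : ℂ) / n) * ((x : ℂ) ^ m / m) := by
      intro c
      rw [mul_pow, ← E_pow hJ]
      have : ((c / n : ℝ) : ℂ) * m = c * ((m : ℤ) : ℂ) / n := by push_cast; ring
      rw [this]; ring
    simp only [e2]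
    rw [← Finset.sum_mul, hg]
    push_cast; ring
  simp only [e] at h
  have h2 := Complex.hasSum_im h
  simp only [Complex.mul_im, Complex.ofReal_re, Complex.I_im, Complex.ofReal_im, Complex.I_re,
    mul_one, mul_zero, add_zero, Complex.im_sum, Complex.intCast_re, Complex.intCast_im,
    Complex.neg_im, Complex.log_im, zero_mul] at h2
  have h4 := h2.div_const (√n)
  simpa only [mul_div_cancel_right₀ _ hn.ne'] using h4

/-- the limit of the power series at `1` -/
lemma tendsto_pow (hJ : RowJH) (hG : RowGAUSS) (h3 : n % 4 = 3) (hs : Squarefree n) :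
    Tendsto (fun x : ℝ =>
      (∑ c ∈ Finset.range n, ((J(c | n) : ℤ) : ℝ) * -(1 - x * E ((c / n : ℝ) : ℂ)).arg) / √n)
      (𝓝 1) (𝓝 (-π * BB n / √n)) := by
  have hn : (0 : ℝ) < n := by exact_mod_cast (by omega : 0 < n)
  refine Tendsto.div_const ?_ _
  have e : -π * (BB n : ℝ) =
      ∑ c ∈ Finset.range n, ((J(c | n) : ℤ) : ℝ) * -(π * ((c / n : ℝ) - 1 / 2)) := by
    have e1 : ∀ c : ℕ, ((J(c | n) : ℤ) : ℝ) * -(π * ((c / n : ℝ) - 1 / 2))
        = -π * ((c : ℝ) * ((J(c | n) : ℤ) : ℝ) / n) + π / 2 * ((J(c | n) : ℤ) : ℝ) := by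
      intro c; ring
    simp only [e1, Finset.sum_add_distrib, ← Finset.mul_sum, sum_J hJ hG h3 hs, ← Finset.sum_div]
    unfold BB
    push_cast; ring
  rw [e]
  refine tendsto_finsetSum _ fun c hc => ?_
  rcases Nat.eq_zero_or_pos c with rfl | hc0
  · simp [J_zero h3]
  have hc1 : (c / n : ℝ) < 1 := (div_lt_one hn).mpr (by exact_mod_cast Finset.mem_range.mp hc)
  have hc2 : (0 : ℝ) < c / n := by positivity
  obtain ⟨hre, harg⟩ := arg_one_sub _ hc2 hc1
  refine Tendsto.const_mul _ (Tendsto.neg ?_)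
  rw [← harg]
  have hcont : ContinuousAt Complex.arg (1 - E ((c / n : ℝ) : ℂ)) :=
    Complex.continuousAt_arg (Or.inl hre)
  have h2 : Tendsto (fun x : ℝ => 1 - x * E ((c / n : ℝ) : ℂ)) (𝓝 1) (𝓝 (1 - E ((c / n : ℝ) : ℂ))) := by
    have : Continuous fun x : ℝ => 1 - x * E ((c / n : ℝ) : ℂ) := by fun_prop
    simpa using this.tendsto 1
  exact hcont.tendsto.comp h2

/-- partial sums of the series at `1` -/
lemma part_one (hJ : RowJH) (hG : RowGAUSS) (h3 : n % 4 = 3) (hs : Squarefree n) (M : ℕ)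
    (hM : 1 ≤ M) :
    |-π * BB n / √n - ∑ m ∈ Finset.range M, ((J(m | n) : ℤ) : ℝ) * (1 / m)| ≤ 2 * n * (1 / M) := by
  have h1 := (tendsto_pow hJ hG h3 hs).mono_left (nhdsWithin_le_nhds (s := Set.Iio 1))
  have h2 : Tendsto (fun x : ℝ => ∑ m ∈ Finset.range M, ((J(m | n) : ℤ) : ℝ) * (x ^ m / m))
      (𝓝[<] 1) (𝓝 (∑ m ∈ Finset.range M, ((J(m | n) : ℤ) : ℝ) * (1 / m))) := by
    have : Continuous fun x : ℝ => ∑ m ∈ Finset.range M, ((J(m | n) : ℤ) : ℝ) * (x ^ m / m) := by
      fun_prop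
    simpa using (this.tendsto 1).mono_left nhdsWithin_le_nhds
  refine le_of_tendsto (h1.sub h2).abs ?_
  filter_upwards [Ioo_mem_nhdsLT (show (0 : ℝ) < 1 by norm_num)] with x hx
  have hM' : (0 : ℝ) < M := by exact_mod_cast hM
  have ha : Antitone fun m : ℕ => x ^ (M + m) / ((M + m : ℕ) : ℝ) := by
    intro a b hab
    refine div_le_div₀ (by have := hx.1; positivity)
      (pow_le_pow_of_le_one hx.1.le hx.2.le (by omega)) (by push_cast; positivity) ?_
    exact_mod_cast (by omega : M + a ≤ M + b)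
  refine (tail_bound _ (fun m => x ^ m / m) n _ (part_J hJ hG h3 hs) M ha
    (fun k => by have := hx.1; positivity) (hasSum_pow hJ hG h3 hs x hx.1.le hx.2)).trans ?_
  gcongr
  exact pow_le_one₀ hx.1.le hx.2.le

lemma summable_rpow (s : ℝ) (hs : 1 < s) :
    Summable fun m : ℕ => ((J(m | n) : ℤ) : ℝ) * (1 / (m : ℝ) ^ s) := by
  refine Summable.of_norm_bounded (Real.summable_one_div_nat_rpow.mpr hs) fun m => ?_
  rw [norm_mul, Real.norm_of_nonneg (by positivity : (0 : ℝ) ≤ 1 / (m : ℝ) ^ s)]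
  refine mul_le_of_le_one_left (by positivity) ?_
  rcases jacobiSym.trichotomy (m : ℤ) n with h | h | h <;> simp [h]

lemma LSeries_eq (s : ℝ) (hs : 1 < s) :
    LSeries (fun m => (J(m | n) : ℂ)) s =
      ((∑' m : ℕ, ((J(m | n) : ℤ) : ℝ) * (1 / (m : ℝ) ^ s) : ℝ) : ℂ) := by
  rw [Complex.ofReal_tsum, LSeries]
  refine tsum_congr fun m => ?_
  rw [LSeries.term_of_ne_zero' (by exact_mod_cast (by linarith : s ≠ 0))]
  rw [Complex.ofReal_mul, Complex.ofReal_div, Complex.ofReal_cpow (Nat.cast_nonneg m)]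
  push_cast; ring

theorem rowLONE : OfLONE := by
  intro hJ hG n h3 hs
  have key : Tendsto (fun s : ℝ => ∑' m : ℕ, ((J(m | n) : ℤ) : ℝ) * (1 / (m : ℝ) ^ s)) (𝓝[>] 1)
      (𝓝 (-π * BB n / √n)) := by
    rw [Metric.tendsto_nhds]
    intro ε hε
    obtain ⟨M, hM⟩ := exists_nat_gt (max 1 (8 * n / ε))
    have hM1 : (1 : ℝ) < M := (le_max_left _ _).trans_lt hM
    have hM2 : 8 * n / ε < M := (le_max_right _ _).trans_lt hM
    have hM0 : (0 : ℝ) < M := by linarith
    have hM3 : 2 * n * (1 / (M : ℝ)) < ε / 4 := by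
      rw [div_lt_iff₀ hε] at hM2
      rw [mul_one_div, div_lt_iff₀ hM0]; linarith
    have h1 := part_one hJ hG h3 hs M (by exact_mod_cast hM1.le)
    have h2 : Tendsto (fun s : ℝ => ∑ m ∈ Finset.range M, ((J(m | n) : ℤ) : ℝ) * (1 / (m : ℝ) ^ s))
        (𝓝[>] 1) (𝓝 (∑ m ∈ Finset.range M, ((J(m | n) : ℤ) : ℝ) * (1 / m))) := by
      refine tendsto_finsetSum _ fun m _ => ?_
      rcases Nat.eq_zero_or_pos m with rfl | hm
      · simp [J_zero h3]
      have hm' : (0 : ℝ) < m := by exact_mod_cast hm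
      have : Continuous fun s : ℝ => ((J(m | n) : ℤ) : ℝ) * (1 / (m : ℝ) ^ s) := by
        refine continuous_const.mul (continuous_const.div ?_ fun s => by positivity)
        exact continuous_const.rpow continuous_id fun _ => Or.inl hm'.ne'
      simpa using (this.tendsto 1).mono_left nhdsWithin_le_nhds
    rw [Metric.tendsto_nhds] at h2
    filter_upwards [h2 (ε / 2) (by positivity), self_mem_nhdsWithin] with s h4 h5
    have h5 : 1 < s := h5
    have ha : Antitone fun m : ℕ => 1 / ((M + m : ℕ) : ℝ) ^ s := by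
      intro a b hab
      refine one_div_le_one_div_of_le (by push_cast; positivity) ?_
      refine Real.rpow_le_rpow (by positivity) ?_ (by linarith)
      exact_mod_cast (by omega : M + a ≤ M + b)
    have h6 := tail_bound _ (fun m => 1 / (m : ℝ) ^ s) n _ (part_J hJ hG h3 hs) M ha
      (fun k => by positivity) (summable_rpow s h5).hasSum
    have h7 : 1 / (M : ℝ) ^ s ≤ 1 / M := by
      refine one_div_le_one_div_of_le hM0 ?_
      simpa using Real.rpow_le_rpow_of_exponent_le hM1.le h5.le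
    have h8 : 2 * n * (1 / (M : ℝ) ^ s) ≤ 2 * n * (1 / (M : ℝ)) := by gcongr
    rw [Real.dist_eq] at h4 ⊢
    rw [abs_lt] at h4 ⊢
    rw [abs_le] at h1 h6
    constructor <;> linarith [h1.1, h1.2, h6.1, h6.2, h4.1, h4.2]
  have h2 := (Complex.continuous_ofReal.tendsto _).comp key
  refine h2.congr' ?_
  filter_upwards [self_mem_nhdsWithin] with s h5
  exact (LSeries_eq s h5).symm

end main

end

end Pool.Agent.MP_5f72fe_nt.H74L
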